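import Pool.Agent.Q283.EN.Stm
import Pool.Agent.Q162.LK.HS2

/-! Project EN (helper283), job HS22 (helper238): the Hilbert symbols for `p = 2`, `i ∈ F`
(the proof is that of `Q162.LK.hs2` by helper162). -/

set_option autoImplicit false
set_option linter.unusedSectionVars false
set_option linter.deprecated false

namespace Pool.Agent.Q238.EN

open NumberField IsDedekindDomain Filter Topology Polynomial
open Pool.Agent.Q7.LK Pool.Agent.Q283.EN
open Pool.Agent.Q162.LK (uniq fin_dp fin_vl exists_kum)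

/-- JOB HS22 -/
theorem hs22 : S_BAS → S_HS12 → S_HS22 := by
  intro hB h1 F _ _ i0 ζ hi hζ
  have hp : Nat.Prime 2 := Nat.prime_two
  choose! τ hτ using h1 F i0 ζ hi hζ
  have mul : ∀ v a b c, a ≠ 0 → b ≠ 0 → c ≠ 0 → τ c v (a * b) = τ c v a + τ c v b :=
    fun v a b c ha hb hc => (hτ c hc).1 v a b ha hb
  have sum : ∀ a c, a ≠ 0 → c ≠ 0 → {v | τ c v a ≠ 0}.Finite ∧ ∑ᶠ v, τ c v a = 0 :=
    fun a c ha hc => (hτ c hc).2.1 a ha
  have pw : ∀ v a c, Lpw 2 v a → c ≠ 0 → τ c v a = 0 :=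
    fun v a c ha hc => (hτ c hc).2.2.1 v a ha
  have unr : ∀ v, ¬ Dp 2 v → ∀ c, c ≠ 0 → vl 2 v c = 0 → ∀ a, a ≠ 0 →
      τ c v a = vl 2 v a * sy 2 ζ v c :=
    fun v hv c hc hvc a ha => (hτ c hc).2.2.2.1 v hv hvc a ha
  have nrm : ∀ c, c ≠ 0 → ∀ (M : Type) [Field M] [NumberField M] [Algebra F M], Kum 2 F M c →
      ∀ y : M, y ≠ 0 → ∀ v, τ c v (Algebra.norm F y) = 0 :=
    fun c hc => (hτ c hc).2.2.2.2
  -- additivity in the second variable
  have mulc : ∀ v a b c, a ≠ 0 → b ≠ 0 → c ≠ 0 → τ (b * c) v a = τ b v a + τ c v a := by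
    intro v a b c ha hb hc
    have hbc : b * c ≠ 0 := mul_ne_zero hb hc
    have key := uniq hB 2 (δ := fun v a => τ (b * c) v a - (τ b v a + τ c v a))
      (R := {v | Dp 2 v} ∪ ({v | vl 2 v b ≠ 0} ∪ {v | vl 2 v c ≠ 0})) ?_ ?_ ?_ ?_ ?_ v a ha
    · exact sub_eq_zero.1 key
    · intro v a a' ha ha'
      rw [mul v a a' _ ha ha' hbc, mul v a a' _ ha ha' hb, mul v a a' _ ha ha' hc]
      ring
    · intro a ha
      have f1 := sum a (b * c) ha hbc
      have f2 := sum a b ha hb
      have f3 := sum a c ha hc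
      have f23 : (Function.support fun v => τ b v a + τ c v a).Finite :=
        (f2.1.union f3.1).subset (Function.support_add _ _)
      rw [finsum_sub_distrib f1.1 f23, finsum_add_distrib f2.1 f3.1, f1.2, f2.2, f3.2]
      ring
    · intro v a ha
      rw [pw v a _ ha hbc, pw v a _ ha hb, pw v a _ ha hc]
      ring
    · exact (fin_dp hp.ne_zero).union ((fin_vl 2 hb).union (fin_vl 2 hc))
    · intro v hv a ha
      simp only [Set.mem_union, Set.mem_setOf_eq, not_or, not_not] at hv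
      obtain ⟨hv1, hv2, hv3⟩ := hv
      have hv4 : vl 2 v (b * c) = 0 := by
        rw [(hB 2 F v).2.2.2.2.1 b c hb hc, hv2, hv3, add_zero]
      have h5 := ((hB 2 F v).2.2.2.2.2.2 hv1 ζ hζ).2.2.1 b c hb hc hv2 hv3
      rw [unr v hv1 _ hbc hv4 a ha, unr v hv1 _ hb hv2 a ha, unr v hv1 _ hc hv3 a ha, h5]
      ring
  have onec : ∀ v a, a ≠ 0 → τ 1 v a = 0 := by
    intro v a ha
    have h := mulc v a 1 1 ha one_ne_zero one_ne_zero
    rw [mul_one] at h
    exact left_eq_add.1 h
  have invc : ∀ v a c, a ≠ 0 → c ≠ 0 → τ c⁻¹ v a = - τ c v a := by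
    intro v a c ha hc
    have h := mulc v a c c⁻¹ ha hc (inv_ne_zero hc)
    rw [mul_inv_cancel₀ hc, onec v a ha] at h
    exact eq_neg_of_add_eq_zero_right h.symm
  have powc : ∀ v a c, a ≠ 0 → c ≠ 0 → ∀ n : ℕ, τ (c ^ n) v a = n * τ c v a := by
    intro v a c ha hc n
    induction n with
    | zero => rw [pow_zero, onec v a ha, Nat.cast_zero, zero_mul]
    | succ n ih =>
      rw [pow_succ, mulc v a _ _ ha (pow_ne_zero _ hc) hc, ih]
      push_cast
      ring
  -- Steinberg relation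
  have stein : ∀ v a b, a ≠ 0 → b ≠ 0 → a + b = 1 → τ a v b = 0 := by
    intro v a b ha hb hab
    by_cases hpw : IsPow 2 a
    · obtain ⟨s, hs⟩ := hpw
      have hs0 : s ≠ 0 := by
        rintro rfl
        rw [zero_pow hp.ne_zero] at hs
        exact ha hs
      rw [hs, powc v b s hb hs0 2, CharP.cast_eq_zero, zero_mul]
    · obtain ⟨M, _, _, _, hM, y, hy⟩ := exists_kum (F := F) 2 hpw
      have hb' : Algebra.norm F y = b := by
        rw [hy, ← hab]
        ring
      have hy0 : y ≠ 0 := by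
        rintro rfl
        have : Nontrivial M := inferInstance
        have : FiniteDimensional F M := by
          refine FiniteDimensional.of_finrank_pos ?_
          rw [hM.deg]
          exact hp.pos
        rw [Algebra.norm_zero] at hb'
        exact hb hb'.symm
      rw [← hb']
      exact nrm a ha M hM y hy0 v
  have neg1 : ∀ v c, c ≠ 0 → τ c v (-1) = 0 := by
    intro v c hc
    refine pw v _ c ?_ hc
    have hi0 : i0 ≠ 0 := by
      rintro rfl
      norm_num at hi
    have h := (hB 2 F v).2.2.1 i0 hi0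
    rwa [hi] at h
  have diag : ∀ v a, a ≠ 0 → τ a v a = 0 := by
    intro v a ha
    by_cases ha1 : a = 1
    · rw [ha1]
      exact onec v 1 one_ne_zero
    have h1a : (1 - a) ≠ 0 := sub_ne_zero.2 (Ne.symm ha1)
    have h1a' : (1 - a⁻¹) ≠ 0 := by
      rw [sub_ne_zero]
      intro h
      apply ha1
      rw [← inv_inv a, ← h, inv_one]
    have e1 := stein v a (1 - a) ha h1a (by ring)
    have e2 := stein v a⁻¹ (1 - a⁻¹) (inv_ne_zero ha) h1a' (by ring)
    rw [invc v _ a h1a' ha, neg_eq_zero] at e2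
    have e3 : 1 - a = -a * (1 - a⁻¹) := by
      field_simp
      ring
    rw [e3, mul v (-a) (1 - a⁻¹) a (neg_ne_zero.2 ha) h1a' ha, e2, add_zero] at e1
    have e4 : -a = -1 * a := by ring
    rw [e4, mul v (-1) a a (by norm_num) ha ha, neg1 v a ha, zero_add] at e1
    exact e1
  refine ⟨fun v a c => τ c v a, ⟨?_, mul, sum, pw, unr, nrm⟩⟩
  intro v a c ha hc
  have h := diag v (a * c) (mul_ne_zero ha hc)
  rw [mul v a c _ ha hc (mul_ne_zero ha hc), mulc v a a c ha ha hc, mulc v c a c hc ha hc,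
    diag v a ha, diag v c hc, zero_add, add_zero] at h
  exact eq_neg_of_add_eq_zero_left h

end Pool.Agent.Q238.EN
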