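import Pool.Agent.Q283.EN.Stm2

/-! Project EN (helper283), job QFEW (helper238): the number of the cocycles, quartic twists. -/

set_option autoImplicit false

namespace Pool.Agent.Q238.EN

open NumberField IsDedekindDomain Pool.Agent.Q7.LK Pool.Agent.Q7.CE Pool.Agent.Q283.EN

/-- a prime of a number field -/
theorem exists_v (F : Type) [Field F] [NumberField F] : Nonempty (HeightOneSpectrum (𝓞 F)) := by
  obtain ⟨M, hM⟩ := Ideal.exists_maximal (𝓞 F)
  have h0 : M ≠ ⊥ := Ring.ne_bot_of_isMaximal_of_not_isField hM (RingOfIntegers.not_isField F)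
  exact ⟨⟨M, hM.isPrime, h0⟩⟩

/-- JOB QFEW -/
theorem qfew : S_QLOC → S_QKUM → S_QFEW := by
  intro hL hK F _ _ i D hi hD hDp r hN f hf
  obtain ⟨b, hb1, -, hb3⟩ := hN
  obtain ⟨a, ha1, -, ha3⟩ := hK F i D hi hD _ f hf
  obtain ⟨v0⟩ := exists_v F
  have hb0 : ∀ l, b l ≠ 0 := fun l => (hb1 l v0).1
  have ha0 : ∀ k, a k ≠ 0 := fun k => (ha1 k v0).1
  have hP : ∀ (k : Fin (2 ^ r + 1)) (j : ℕ) (v : HeightOneSpectrum (𝓞 F)), AQ v D (a k * D ^ j) := by
    intro k j v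
    induction j with
    | zero =>
      rw [pow_zero, mul_one]
      exact ha1 k v
    | succ j ih =>
      rw [pow_succ, ← mul_assoc]
      exact (hL F i hi v D hD).2.2.1 _ ih
  choose g hg using fun kj : Fin (2 ^ r + 1) × Fin 2 => hb3 (a kj.1 * D ^ (kj.2 : ℕ)) (hP kj.1 kj.2)
  obtain ⟨⟨k, j⟩, ⟨k', j'⟩, hne, heq⟩ := Fintype.exists_ne_map_eq_of_card_lt g (by
    rw [Fintype.card_fin, Fintype.card_prod, Fintype.card_fin, Fintype.card_fin, pow_succ]
    omega)
  obtain ⟨s, hs⟩ := hg (k, j)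
  obtain ⟨s', hs'⟩ := hg (k', j')
  rw [← heq] at hs'
  simp only at hs hs'
  have hbl := hb0 (g (k, j))
  set β := b (g (k, j))
  have e1 : a k * D ^ (j : ℕ) = β * s ^ 2 := by
    rw [← hs]
    field_simp
  have e2 : a k' * D ^ (j' : ℕ) = β * s' ^ 2 := by
    rw [← hs']
    field_simp
  have hs0 : s ≠ 0 := by
    rintro rfl
    rw [zero_pow two_ne_zero, mul_zero] at e1
    exact mul_ne_zero (ha0 k) (pow_ne_zero _ hD) e1
  have hs0' : s' ≠ 0 := by
    rintro rfl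
    rw [zero_pow two_ne_zero, mul_zero] at e2
    exact mul_ne_zero (ha0 k') (pow_ne_zero _ hD) e2
  have hkk : k ≠ k' := by
    rintro rfl
    have hjj : j ≠ j' := fun h => hne (by rw [h])
    have e3 : D ^ (j : ℕ) * s' ^ 2 = D ^ (j' : ℕ) * s ^ 2 := by
      have h1 : a k * β * (D ^ (j : ℕ) * s' ^ 2) = a k * β * (D ^ (j' : ℕ) * s ^ 2) := by
        linear_combination (β * s' ^ 2) * e1 - (β * s ^ 2) * e2
      exact mul_left_cancel₀ (mul_ne_zero (ha0 k) hbl) h1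
    have hj : (j = 0 ∧ j' = 1) ∨ (j = 1 ∧ j' = 0) := by
      fin_cases j <;> fin_cases j' <;> simp_all
    rcases hj with ⟨rfl, rfl⟩ | ⟨rfl, rfl⟩
    · apply hDp
      refine ⟨s' / s, ?_⟩
      simp only [Fin.val_zero, Fin.val_one, pow_zero, pow_one, one_mul] at e3
      rw [div_pow, e3]
      field_simp
    · apply hDp
      refine ⟨s / s', ?_⟩
      simp only [Fin.val_zero, Fin.val_one, pow_zero, pow_one, one_mul] at e3
      rw [div_pow, ← e3]
      field_simp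
  refine ⟨k, k', hkk, ha3 k k' ((j : ℕ) + (j' : ℕ)) ⟨s * D ^ (j' : ℕ) / s', ?_⟩⟩
  have e4 : a k = β * s ^ 2 / D ^ (j : ℕ) := by
    rw [← e1]
    field_simp
  have e5 : a k' = β * s' ^ 2 / D ^ (j' : ℕ) := by
    rw [← e2]
    field_simp
  rw [e4, e5, pow_add]
  field_simp

end Pool.Agent.Q238.EN
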