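import Pool.Agent.Q283.EN.Stm2
import Pool.Agent.Q285.CE.ETRI

/-!
# Project EN (helper283), job QTRI (helper238): quartic twists, triviality of the Tate-Shafarevich group and
finiteness of the Mordell-Weil group

The proof is that of `Pool/Agent/Q285/CE/ETRI.lean` (helper285) with `2` in place of `3`.
-/

set_option autoImplicit false

namespace Pool.Agent.Q238.EN

open NumberField IsDedekindDomain WeierstrassCurve Pool.Agent.Q7.LK Pool.Agent.Q7.CE Pool.Agent.Q283.EN
open Pool.Agent.TH841.SH.D (Coch Pt act Gal IsCoc IsCob LocTriv cob)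
open Pool.Agent.TH841.NF.D (Sha IsShaCoc shaCoc)
open Pool.Agent.Q285.CE (cbd act_act' act_inj act_fix descent sha_cbd)

/-- an endomorphism over all the extensions, like `1 + i` -/
structure EndG2 {k : Type} [Field k] (W : WeierstrassCurve k)
    (Θ : ∀ (L : Type) [Field L] [Algebra k L], Pt W L →+ Pt W L) : Prop where
  nat : ∀ (L L' : Type) [Field L] [Algebra k L] [Field L'] [Algebra k L'] (φ : L →ₐ[k] L') (P : Pt W L),
    act W φ (Θ L P) = Θ L' (act W φ P)
  ker : ∀ (L : Type) [Field L] [Algebra k L] (P : Pt W L),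
    Θ L P = 0 → P = 0 ∨ ∃ h, P = Affine.Point.some 0 0 h
  surj : ∀ (L : Type) [Field L] [Algebra k L], IsAlgClosed L → ∀ P : Pt W L, ∃ R, Θ L R = P

/-- finitely generated groups with `M = 2 M + M[2]` are finite -/
theorem fin_of_div2 {M : Type} [AddCommGroup M] (hfg : AddGroup.FG M)
    (h : ∀ P : M, ∃ Q T : M, P = (2 : ℕ) • Q + T ∧ (2 : ℕ) • T = 0) : Finite M := by
  have hM : Module.Finite ℤ M := Module.Finite.iff_addGroup_fg.2 hfg
  let g : M →ₗ[ℤ] M := LinearMap.lsmul ℤ M 2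
  have hg : ∀ x, g x = (2 : ℤ) • x := fun x => rfl
  have hN : (LinearMap.range g).FG := by
    rw [LinearMap.range_eq_map]
    exact (Module.Finite.fg_top (R := ℤ) (M := M)).map g
  have hle : LinearMap.range g ≤ (Ideal.span {(2 : ℤ)}) • LinearMap.range g := by
    rintro _ ⟨P, rfl⟩
    obtain ⟨Q, T, hP, hT⟩ := h P
    have e : g P = (2 : ℤ) • g Q := by
      rw [hg, hg, hP, smul_add]
      have h1 : (2 : ℤ) • T = 0 := by
        rw [← hT, ← natCast_zsmul]
        rfl
      rw [h1, add_zero, ← natCast_zsmul]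
      rfl
    rw [e]
    exact Submodule.smul_mem_smul (Ideal.mem_span_singleton_self _) ⟨Q, rfl⟩
  obtain ⟨r, hr, hrN⟩ := Submodule.exists_sub_one_mem_and_smul_eq_zero_of_fg_of_le_smul _ _ hN hle
  have hr0 : r ≠ 0 := by
    rintro rfl
    rw [Ideal.mem_span_singleton] at hr
    omega
  have ht : Module.IsTorsion ℤ M := by
    intro x
    refine ⟨⟨r * 2, mem_nonZeroDivisors_of_ne_zero (mul_ne_zero hr0 (by norm_num))⟩, ?_⟩
    show (r * 2) • x = 0
    rw [mul_smul]
    exact hrN _ ⟨x, rfl⟩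
  exact Module.finite_of_fg_torsion _ ht

section main

variable {F : Type} [Field F] [NumberField F] {W : WeierstrassCurve F}

variable {Θ : ∀ (L : Type) [Field L] [Algebra F L], Pt W L →+ Pt W L}

theorem sha_theta2 (hΘ : EndG2 W Θ) {f : Coch W} (hf : IsShaCoc W f) :
    IsShaCoc W (fun σ => Θ (AlgebraicClosure F) (f σ)) := by
  have hl : ∀ (K : Type) [Field K] [Algebra F K], LocTriv W K f →
      LocTriv W K (fun σ => Θ (AlgebraicClosure F) (f σ)) := by
    intro K _ _ h ι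
    obtain ⟨P, hP⟩ := h ι
    refine ⟨Θ (AlgebraicClosure K) P, fun τ σ hτ => ?_⟩
    rw [hΘ.nat, hP τ σ hτ, map_sub, ← hΘ.nat]
  refine ⟨⟨hf.1.1.comp _, fun σ τ => ?_⟩, fun v => hl _ (hf.2.1 v), fun v => hl _ (hf.2.2 v)⟩
  show Θ (AlgebraicClosure F) (f (σ * τ)) = Θ (AlgebraicClosure F) (f σ) +
    act W σ.toAlgHom (Θ (AlgebraicClosure F) (f τ))
  rw [hf.1.2, map_add, hΘ.nat]

/-- the hypothesis (A) -/
def HA2 (W : WeierstrassCurve F) : Prop := ∀ f : Coch W, IsShaCoc W f →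
  (∀ σ, f σ = 0 ∨ ∃ h, f σ = Affine.Point.some 0 0 h) →
  ∃ R : Pt W (AlgebraicClosure F), (2 : ℕ) • R = 0 ∧ ∀ σ : Gal F, f σ = act W σ.toAlgHom R - R

theorem stepB2 (hA : HA2 W) (hΘ : EndG2 W Θ) {f : Coch W} (hf : IsShaCoc W f)
    (hc : IsCob W (fun σ => Θ (AlgebraicClosure F) (f σ))) : IsCob W f := by
  obtain ⟨P, hP⟩ := hc
  obtain ⟨R, hR⟩ := hΘ.surj (AlgebraicClosure F) inferInstance P
  have hg : IsShaCoc W (f - cbd W R) := (shaCoc W).sub_mem hf (sha_cbd R)
  obtain ⟨R', -, hR'⟩ := hA (f - cbd W R) hg (fun σ => by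
    apply hΘ.ker
    show Θ (AlgebraicClosure F) (f σ - (act W σ.toAlgHom R - R)) = 0
    have h1 : Θ (AlgebraicClosure F) (f σ) = act W σ.toAlgHom P - P := hP σ
    rw [map_sub, map_sub, ← hΘ.nat, h1, hR, sub_self])
  refine ⟨R + R', fun σ => ?_⟩
  have h1 : f σ - (act W σ.toAlgHom R - R) = act W σ.toAlgHom R' - R' := hR' σ
  rw [map_add]
  have h2 : f σ = (act W σ.toAlgHom R' - R') + (act W σ.toAlgHom R - R) := by
    rw [← h1]
    abel
  rw [h2]
  abel

theorem stepC2 (hA : HA2 W) (hΘ : EndG2 W Θ) (P : Pt W F) :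
    ∃ Q T : Pt W F, P = Θ F Q + T ∧ (2 : ℕ) • T = 0 := by
  let j := act W (Algebra.ofId F (AlgebraicClosure F))
  have hj : Function.Injective j := act_inj W _
  obtain ⟨R, hR⟩ := hΘ.surj (AlgebraicClosure F) inferInstance (j P)
  obtain ⟨R', h3, hR'⟩ := hA (cbd W R) (sha_cbd R) (fun σ => by
    apply hΘ.ker
    show Θ (AlgebraicClosure F) (act W σ.toAlgHom R - R) = 0
    rw [map_sub, ← hΘ.nat, hR]
    show act W σ.toAlgHom (act W (Algebra.ofId F (AlgebraicClosure F)) P) - j P = 0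
    rw [act_fix]
    exact sub_self _)
  obtain ⟨Q, hQ⟩ := descent W (R - R') (fun σ => by
    have h1 : act W σ.toAlgHom R - R = act W σ.toAlgHom R' - R' := hR' σ
    rw [map_sub]
    rw [sub_eq_sub_iff_add_eq_add] at h1 ⊢
    rw [h1]
    abel)
  refine ⟨Q, P - Θ F Q, by abel, ?_⟩
  apply hj
  have h1 : j (P - Θ F Q) = Θ (AlgebraicClosure F) R' := by
    have h2 : j (Θ F Q) = Θ (AlgebraicClosure F) (R - R') := by
      rw [← hQ]
      exact hΘ.nat F (AlgebraicClosure F) _ Q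
    rw [map_sub, h2, ← hR, map_sub]
    abel
  rw [map_nsmul, h1, ← map_nsmul, h3, map_zero, map_zero]

end main

/-- JOB QTRI -/
theorem qtri : S_QFEND → S_QTRI := by
  intro hEDD F _ _ i D hi hD hfew
  obtain ⟨θ, θ', h3, hnat, hker, hsurj, -, -⟩ := hEDD F i D hi hD
  have hA : HA2 (EQ D) := by
    intro f hf hv
    have h0 : TCoc2 D (0 : Coch (EQ D)) := ⟨(shaCoc (EQ D)).zero_mem, fun σ => Or.inl rfl⟩
    obtain ⟨k, k', hne, R, hR2, hR⟩ := hfew ![f, 0] (fun k => by
      refine Fin.cases ?_ (fun j => ?_) k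
      · exact ⟨hf, hv⟩
      · have hj : j = 0 := Subsingleton.elim _ _
        subst hj
        exact h0)
    have hk : k = 0 ∧ k' = 1 ∨ k = 1 ∧ k' = 0 := by
      fin_cases k <;> fin_cases k' <;> simp_all
    rcases hk with ⟨rfl, rfl⟩ | ⟨rfl, rfl⟩
    · refine ⟨R, hR2, fun σ => ?_⟩
      have h1 : f σ - 0 = act (EQ D) σ.toAlgHom R - R := hR σ
      rwa [sub_zero] at h1
    · refine ⟨-R, by rw [smul_neg, hR2, neg_zero], fun σ => ?_⟩
      have h1 : 0 - f σ = act (EQ D) σ.toAlgHom R - R := hR σ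
      rw [zero_sub] at h1
      rw [map_neg, ← neg_neg (f σ), h1]
      abel
  have hθ : EndG2 (EQ D) θ := ⟨fun L L' _ _ _ _ φ P => (hnat L L' φ P).1, fun L _ _ P => (hker L P).1.1,
    fun L _ _ hL P => (hsurj L hL P).1⟩
  have hθ' : EndG2 (EQ D) θ' := ⟨fun L L' _ _ _ _ φ P => (hnat L L' φ P).2, fun L _ _ P => (hker L P).2.1,
    fun L _ _ hL P => (hsurj L hL P).2⟩
  constructor
  · have hΔ : ((EQ D).baseChange F).Δ ≠ 0 := by
      have e : ((EQ D).baseChange F).Δ = -64 * D ^ 3 := by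
        show -(_ : F) ^ 2 * _ - 8 * _ ^ 3 - 27 * _ ^ 2 + 9 * _ * _ * _ = _
        have e2 : ((EQ D).baseChange F).b₂ = 0 := by
          show (0 : F) ^ 2 + 4 * 0 = 0
          ring
        have e4 : ((EQ D).baseChange F).b₄ = 2 * D := by
          show 2 * D + (0 : F) * 0 = 2 * D
          ring
        have e6 : ((EQ D).baseChange F).b₆ = 0 := by
          show (0 : F) ^ 2 + 4 * (0 : F) = 0
          ring
        rw [e2, e4, e6]
        ring
      rw [e]
      exact mul_ne_zero (by norm_num) (pow_ne_zero 3 hD)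
    have hfg : AddGroup.FG (Pt (EQ D) F) :=
      @Pool.Agent.Q286.EQ.mordell_weil F _ _ (Classical.decEq F) ((EQ D).baseChange F) hΔ
    have hfin : Finite (Pt (EQ D) F) := fin_of_div2 hfg fun P => by
      obtain ⟨Q, T, hP, hT⟩ := stepC2 hA hθ P
      obtain ⟨Q', T', hQ, hT'⟩ := stepC2 hA hθ' Q
      refine ⟨Q', θ F T' + T, ?_, ?_⟩
      · rw [hP, hQ, map_add, (h3 F Q').2, add_assoc]
      · rw [smul_add, hT, ← map_nsmul, hT', map_zero, add_zero]
    exact hfin
  · have hcob : ∀ f : Coch (EQ D), IsShaCoc (EQ D) f → IsCob (EQ D) (fun σ => (2 : ℕ) • f σ) → IsCob (EQ D) f := by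
      intro f hf hc
      refine stepB2 hA hθ hf (stepB2 hA hθ' (sha_theta2 hθ hf) ?_)
      have e : (fun σ => θ' (AlgebraicClosure F) (θ (AlgebraicClosure F) (f σ))) =
          fun σ => (2 : ℕ) • f σ := funext fun σ => (h3 _ _).1
      rw [e]
      exact hc
    have h1 : ∀ x : Sha (EQ D), (2 : ℕ) • x = 0 → x = 0 := by
      intro x
      obtain ⟨f, rfl⟩ := QuotientAddGroup.mk_surjective x
      intro hx
      have h2 : IsCob (EQ D) (fun σ => (2 : ℕ) • f.1 σ) := by
        have h4 := (QuotientAddGroup.eq_zero_iff (N := (cob (EQ D)).addSubgroupOf (shaCoc (EQ D)))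
          ((2 : ℕ) • f)).1 hx
        exact h4
      exact (QuotientAddGroup.eq_zero_iff (N := (cob (EQ D)).addSubgroupOf (shaCoc (EQ D))) f).2
        (hcob f.1 f.2 h2)
    intro n
    induction n with
    | zero =>
      intro x hx
      rwa [pow_zero, one_smul] at hx
    | succ n ih =>
      intro x hx
      apply h1
      apply ih
      rw [← mul_smul, ← pow_succ]
      exact hx

end Pool.Agent.Q238.EN
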