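import Mathlib

/-! Project EN (helper283), job SYML (helper238): bordered symmetric matrices over `F_p`. -/

set_option autoImplicit false
set_option linter.unusedSectionVars false

namespace Pool.Agent.Q238.EN

open Finset Filter Topology Matrix

variable {p : ℕ} [Fact p.Prime]

/-- the number of the elements of the kernel -/
noncomputable def Kn {n : ℕ} (M : Matrix (Fin n) (Fin n) (ZMod p)) : ℕ :=
  Nat.card {x : Fin n → ZMod p // M.mulVec x = 0}

/-- bordered matrix -/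
def bo {n : ℕ} (A : Matrix (Fin n) (Fin n) (ZMod p)) (b : Fin n → ZMod p) (c : ZMod p) :
    Matrix (Fin (n + 1)) (Fin (n + 1)) (ZMod p) :=
  Matrix.of fun i j => Fin.cases (Fin.cases c b j) (fun i' => Fin.cases (b i') (fun j' => A i' j') j) i

@[simp] lemma bo_zz {n : ℕ} (A : Matrix (Fin n) (Fin n) (ZMod p)) (b : Fin n → ZMod p) (c : ZMod p) :
    bo A b c 0 0 = c := rfl

@[simp] lemma bo_zs {n : ℕ} (A : Matrix (Fin n) (Fin n) (ZMod p)) (b : Fin n → ZMod p) (c : ZMod p) (j : Fin n) :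
    bo A b c 0 j.succ = b j := rfl

@[simp] lemma bo_sz {n : ℕ} (A : Matrix (Fin n) (Fin n) (ZMod p)) (b : Fin n → ZMod p) (c : ZMod p) (i : Fin n) :
    bo A b c i.succ 0 = b i := rfl

@[simp] lemma bo_ss {n : ℕ} (A : Matrix (Fin n) (Fin n) (ZMod p)) (b : Fin n → ZMod p) (c : ZMod p)
    (i j : Fin n) : bo A b c i.succ j.succ = A i j := rfl

/-- the symmetric matrices of size `n + 1` -/
def boE (n : ℕ) : ({A : Matrix (Fin n) (Fin n) (ZMod p) // A.IsSymm} × (Fin n → ZMod p) × ZMod p) ≃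
    {M : Matrix (Fin (n + 1)) (Fin (n + 1)) (ZMod p) // M.IsSymm} where
  toFun x := ⟨bo x.1.1 x.2.1 x.2.2, by
    ext i j
    rw [transpose_apply]
    refine Fin.cases ?_ (fun i' => ?_) i
    · refine Fin.cases rfl (fun j' => rfl) j
    · refine Fin.cases rfl (fun j' => ?_) j
      rw [bo_ss, bo_ss]
      exact x.1.2.apply i' j'⟩
  invFun M := (⟨Matrix.of fun i j => M.1 i.succ j.succ, by
    ext i j
    exact M.2.apply _ _⟩, fun i => M.1 i.succ 0, M.1 0 0)
  left_inv x := by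
    rcases x with ⟨⟨A, hA⟩, b, c⟩
    rfl
  right_inv M := by
    apply Subtype.ext
    ext i j
    refine Fin.cases ?_ (fun i' => ?_) i
    · refine Fin.cases rfl (fun j' => ?_) j
      exact M.2.apply _ _
    · refine Fin.cases rfl (fun j' => rfl) j

lemma bo_mulVec {n : ℕ} (A : Matrix (Fin n) (Fin n) (ZMod p)) (b : Fin n → ZMod p) (c : ZMod p) (y : ZMod p)
    (x : Fin n → ZMod p) : (bo A b c).mulVec (Fin.cons y x) = 0 ↔
      c * y + b ⬝ᵥ x = 0 ∧ A.mulVec x = - (y • b) := by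
  constructor
  · intro h
    constructor
    · have h0 := congrFun h 0
      simp only [mulVec, dotProduct, Fin.sum_univ_succ, bo_zz, bo_zs, Fin.cons_zero, Fin.cons_succ,
        Pi.zero_apply] at h0
      exact h0
    · ext i
      have h0 := congrFun h i.succ
      simp only [mulVec, dotProduct, Fin.sum_univ_succ, bo_sz, bo_ss, Fin.cons_zero, Fin.cons_succ,
        Pi.zero_apply] at h0
      simp only [mulVec, dotProduct, Pi.neg_apply, Pi.smul_apply, smul_eq_mul]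
      linear_combination h0
  · rintro ⟨h1, h2⟩
    ext i
    refine Fin.cases ?_ (fun i' => ?_) i
    · simp only [mulVec, dotProduct, Fin.sum_univ_succ, bo_zz, bo_zs, Fin.cons_zero, Fin.cons_succ,
        Pi.zero_apply]
      exact h1
    · have h0 := congrFun h2 i'
      simp only [mulVec, dotProduct, Pi.neg_apply, Pi.smul_apply, smul_eq_mul] at h0
      simp only [mulVec, dotProduct, Fin.sum_univ_succ, bo_sz, bo_ss, Fin.cons_zero, Fin.cons_succ,
        Pi.zero_apply]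
      linear_combination h0

lemma Kn_bo {n : ℕ} (A : Matrix (Fin n) (Fin n) (ZMod p)) (b : Fin n → ZMod p) (c : ZMod p) :
    Kn (bo A b c) = Nat.card {v : ZMod p × (Fin n → ZMod p) //
      c * v.1 + b ⬝ᵥ v.2 = 0 ∧ A.mulVec v.2 = - (v.1 • b)} := by
  unfold Kn
  symm
  apply Nat.card_congr
  refine (Equiv.subtypeEquiv (Fin.consEquiv fun _ : Fin (n + 1) => ZMod p) ?_)
  rintro ⟨y, x⟩
  exact (bo_mulVec A b c y x).symm

lemma symm_dot {n : ℕ} {A : Matrix (Fin n) (Fin n) (ZMod p)} (hA : A.IsSymm) (x y : Fin n → ZMod p) :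
    A.mulVec x ⬝ᵥ y = x ⬝ᵥ A.mulVec y := by
  rw [dotProduct_mulVec]
  congr 1
  rw [← mulVec_transpose, hA.eq]

/-- `b` not in the image -/
lemma Kn_bo_out {n : ℕ} {A : Matrix (Fin n) (Fin n) (ZMod p)} (hA : A.IsSymm) {b : Fin n → ZMod p} (c : ZMod p)
    (hb : ¬ ∃ x, A.mulVec x = b) : p * Kn (bo A b c) = Kn A := by
  obtain ⟨y, hy1, hy2⟩ : ∃ y : Fin n → ZMod p, A.mulVec y = 0 ∧ b ⬝ᵥ y = 1 := by
    have h1 : b ∉ LinearMap.range A.mulVecLin := by
      rintro ⟨x, hx⟩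
      exact hb ⟨x, hx⟩
    obtain ⟨φ, hφ1, hφ2⟩ := Submodule.exists_le_ker_of_notMem h1
    have h3 : ∀ v, φ v = (fun i => φ (Pi.single i 1)) ⬝ᵥ v := by
      intro v
      conv_lhs => rw [← Finset.univ_sum_single v]
      rw [map_sum]
      unfold dotProduct
      apply Finset.sum_congr rfl
      intro i _
      have : (Pi.single i (v i) : Fin n → ZMod p) = v i • Pi.single i 1 := by
        rw [← Pi.single_smul, smul_eq_mul, mul_one]
      rw [this, map_smul, smul_eq_mul, mul_comm]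
    set z : Fin n → ZMod p := fun i => φ (Pi.single i 1) with hz
    have h4 : A.mulVec z = 0 := by
      have h5 : ∀ v, A.mulVec z ⬝ᵥ v = 0 := by
        intro v
        rw [symm_dot hA, ← h3]
        exact hφ2 ⟨v, rfl⟩
      ext i
      have := h5 (Pi.single i 1)
      rwa [dotProduct_single, mul_one] at this
    have h6 : b ⬝ᵥ z ≠ 0 := by
      rw [dotProduct_comm, ← h3]
      exact hφ1
    refine ⟨(b ⬝ᵥ z)⁻¹ • z, ?_, ?_⟩
    · rw [mulVec_smul, h4, smul_zero]
    · rw [dotProduct_smul, smul_eq_mul, inv_mul_cancel₀ h6]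
  have hzero : ∀ (t : ZMod p) (x : Fin n → ZMod p), A.mulVec x = -(t • b) → t = 0 := by
    intro t x hx
    by_contra ht
    apply hb
    refine ⟨(-t⁻¹) • x, ?_⟩
    rw [mulVec_smul, hx, smul_neg, neg_smul, neg_neg, smul_smul, inv_mul_cancel₀ ht, one_smul]
  rw [Kn_bo]
  unfold Kn
  have hp : ∀ N : ℕ, p * N = Nat.card (ZMod p) * N := fun N => by rw [Nat.card_zmod]
  rw [hp, ← Nat.card_prod]
  apply Nat.card_congr
  refine
    { toFun := fun w => ⟨w.2.1.2 + w.1 • y, ?_⟩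
      invFun := fun x => (b ⬝ᵥ x.1, ⟨(0, x.1 - (b ⬝ᵥ x.1) • y), ?_, ?_⟩)
      left_inv := ?_
      right_inv := ?_ }
  · obtain ⟨w1, ⟨⟨t, x⟩, h1, h2⟩⟩ := w
    have h3 := hzero t x h2
    simp only at h2 ⊢
    rw [mulVec_add, mulVec_smul, hy1, h2, h3]
    simp
  · simp only [mul_zero, zero_add]
    rw [dotProduct_sub, dotProduct_smul, hy2]
    simp
  · simp only [zero_smul, neg_zero]
    rw [mulVec_sub, mulVec_smul, hy1, x.2]
    simp
  · rintro ⟨w1, ⟨⟨t, x⟩, h1, h2⟩⟩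
    have h3 := hzero t x h2
    subst h3
    simp only [mul_zero, zero_add] at h1
    have h4 : b ⬝ᵥ (x + w1 • y) = w1 := by
      rw [dotProduct_add, h1, dotProduct_smul, hy2]
      simp
    simp only [h4]
    refine Prod.ext rfl (Subtype.ext (Prod.ext rfl ?_))
    simp
  · rintro ⟨x, hx⟩
    apply Subtype.ext
    simp

/-- `b` in the image, `c` general -/
lemma Kn_bo_ne {n : ℕ} {A : Matrix (Fin n) (Fin n) (ZMod p)} (hA : A.IsSymm) {c : ZMod p}
    {x₀ : Fin n → ZMod p} (hc : c ≠ x₀ ⬝ᵥ A.mulVec x₀) : Kn (bo A (A.mulVec x₀) c) = Kn A := by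
  rw [Kn_bo]
  unfold Kn
  apply Nat.card_congr
  have key : ∀ (t : ZMod p) (x : Fin n → ZMod p), c * t + A.mulVec x₀ ⬝ᵥ x = 0 →
      A.mulVec x = -(t • A.mulVec x₀) → t = 0 := by
    intro t x h1 h2
    rw [symm_dot hA, h2, dotProduct_neg, dotProduct_smul, smul_eq_mul] at h1
    have h3 : (c - x₀ ⬝ᵥ A.mulVec x₀) * t = 0 := by linear_combination h1
    exact (mul_eq_zero.mp h3).resolve_left (sub_ne_zero.mpr hc)
  refine
    { toFun := fun w => ⟨w.1.2, ?_⟩
      invFun := fun x => ⟨(0, x.1), ?_, ?_⟩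
      left_inv := ?_
      right_inv := ?_ }
  · obtain ⟨⟨t, x⟩, h1, h2⟩ := w
    have h3 := key t x h1 h2
    simp only at h2 ⊢
    rw [h2, h3]
    simp
  · simp only [mul_zero, zero_add]
    rw [symm_dot hA, x.2]
    simp
  · simp only [zero_smul, neg_zero]
    exact x.2
  · rintro ⟨⟨t, x⟩, h1, h2⟩
    have h3 := key t x h1 h2
    subst h3
    rfl
  · rintro ⟨x, hx⟩
    rfl

/-- `b` in the image, `c` special -/
lemma Kn_bo_eq {n : ℕ} {A : Matrix (Fin n) (Fin n) (ZMod p)} (hA : A.IsSymm) (x₀ : Fin n → ZMod p) :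
    Kn (bo A (A.mulVec x₀) (x₀ ⬝ᵥ A.mulVec x₀)) = p * Kn A := by
  rw [Kn_bo]
  unfold Kn
  have hp : ∀ N : ℕ, p * N = Nat.card (ZMod p) * N := fun N => by rw [Nat.card_zmod]
  rw [hp, ← Nat.card_prod]
  apply Nat.card_congr
  refine
    { toFun := fun w => (w.1.1, ⟨w.1.2 + w.1.1 • x₀, ?_⟩)
      invFun := fun w => ⟨(w.1, w.2.1 - w.1 • x₀), ?_, ?_⟩
      left_inv := ?_
      right_inv := ?_ }
  · obtain ⟨⟨t, x⟩, h1, h2⟩ := w
    simp only at h2 ⊢
    rw [mulVec_add, mulVec_smul, h2]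
    simp
  · obtain ⟨t, ⟨x, hx⟩⟩ := w
    simp only
    rw [dotProduct_sub, dotProduct_smul, symm_dot hA x₀ x, hx, symm_dot hA x₀ x₀]
    simp
    ring
  · obtain ⟨t, ⟨x, hx⟩⟩ := w
    simp only
    rw [mulVec_sub, mulVec_smul, hx]
    simp
  · rintro ⟨⟨t, x⟩, h1, h2⟩
    apply Subtype.ext
    refine Prod.ext rfl ?_
    simp
  · rintro ⟨t, ⟨x, hx⟩⟩
    refine Prod.ext rfl (Subtype.ext ?_)
    simp

/-- the number of the elements of the image -/
lemma card_im {n : ℕ} (A : Matrix (Fin n) (Fin n) (ZMod p)) :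
    Nat.card {b : Fin n → ZMod p // ∃ x, A.mulVec x = b} * Kn A = p ^ n := by
  unfold Kn
  have hp : p ^ n = Nat.card (Fin n → ZMod p) := by
    rw [Nat.card_pi]
    simp
  rw [hp, ← Nat.card_prod]
  apply Nat.card_congr
  choose! σ hσ using fun (b : Fin n → ZMod p) (h : ∃ x, A.mulVec x = b) => h
  refine
    { toFun := fun w => σ w.1.1 + w.2.1
      invFun := fun x => (⟨A.mulVec x, x, rfl⟩, ⟨x - σ (A.mulVec x), ?_⟩)
      left_inv := ?_
      right_inv := ?_ }
  · rw [mulVec_sub, hσ _ ⟨x, rfl⟩, sub_self]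
  · rintro ⟨⟨b, hb⟩, ⟨x, hx⟩⟩
    have h1 : A.mulVec (σ b + x) = b := by rw [mulVec_add, hσ b hb, hx, add_zero]
    refine Prod.ext (Subtype.ext h1) (Subtype.ext ?_)
    simp [h1]
  · intro x
    simp

lemma Kn_pow {n : ℕ} (A : Matrix (Fin n) (Fin n) (ZMod p)) : ∃ s : ℕ, s ≤ n ∧ Kn A = p ^ s := by
  refine ⟨Module.finrank (ZMod p) (LinearMap.ker A.mulVecLin), ?_, ?_⟩
  · refine (Submodule.finrank_le _).trans ?_
    rw [Module.finrank_fin_fun]
  · have h1 : Nat.card (LinearMap.ker A.mulVecLin) = p ^ Module.finrank (ZMod p) (LinearMap.ker A.mulVecLin) := by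
      rw [Module.natCard_eq_pow_finrank (K := ZMod p), Nat.card_zmod]
    rw [← h1]
    unfold Kn
    exact Nat.card_congr (Equiv.subtypeEquivRight fun x => by rw [LinearMap.mem_ker, mulVecLin_apply])

end Pool.Agent.Q238.EN
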