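import Pool.Agent.Q238.EN.Sym

/-! Project EN (helper283), job SYML (helper238): the law of the corank, recursion and closed form. -/

set_option autoImplicit false
set_option linter.unusedSectionVars false

namespace Pool.Agent.Q238.EN

open Finset Filter Topology Matrix
open scoped Classical

section

variable (p : ℕ) [Fact p.Prime]

/-- symmetric matrices -/
abbrev Sy (n : ℕ) : Type := {A : Matrix (Fin n) (Fin n) (ZMod p) // A.IsSymm}

noncomputable instance (n : ℕ) : Fintype (Sy p n) := Fintype.ofFinite _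

end

section

variable {p : ℕ} [Fact p.Prime]

/-- the corank -/
noncomputable def co {n : ℕ} (A : Matrix (Fin n) (Fin n) (ZMod p)) : ℕ := Nat.log p (Kn A)

lemma p1 : 1 < p := (Fact.out : p.Prime).one_lt

lemma Kn_co {n : ℕ} (A : Matrix (Fin n) (Fin n) (ZMod p)) : Kn A = p ^ co A := by
  obtain ⟨s, -, hs⟩ := Kn_pow A
  unfold co
  rw [hs, Nat.log_pow p1]

lemma co_le {n : ℕ} (A : Matrix (Fin n) (Fin n) (ZMod p)) : co A ≤ n := by
  obtain ⟨s, h, hs⟩ := Kn_pow A
  unfold co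
  rw [hs, Nat.log_pow p1]
  exact h

lemma co_eq {n : ℕ} (A : Matrix (Fin n) (Fin n) (ZMod p)) (s : ℕ) : Kn A = p ^ s ↔ co A = s := by
  rw [Kn_co]
  exact ⟨fun h => Nat.pow_right_injective p1 h, fun h => by rw [h]⟩

lemma co_out {n : ℕ} {A : Matrix (Fin n) (Fin n) (ZMod p)} (hA : A.IsSymm) {b : Fin n → ZMod p} (c : ZMod p)
    (hb : ¬ ∃ x, A.mulVec x = b) : co (bo A b c) = co A - 1 := by
  have h := Kn_bo_out hA c hb
  rw [Kn_co, Kn_co, ← pow_succ'] at h
  have : co (bo A b c) + 1 = co A := Nat.pow_right_injective p1 h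
  omega

lemma co_ne {n : ℕ} {A : Matrix (Fin n) (Fin n) (ZMod p)} (hA : A.IsSymm) {c : ZMod p}
    {x₀ : Fin n → ZMod p} (hc : c ≠ x₀ ⬝ᵥ A.mulVec x₀) : co (bo A (A.mulVec x₀) c) = co A := by
  have h := Kn_bo_ne hA hc
  unfold co
  rw [h]

lemma co_eq' {n : ℕ} {A : Matrix (Fin n) (Fin n) (ZMod p)} (hA : A.IsSymm) (x₀ : Fin n → ZMod p) :
    co (bo A (A.mulVec x₀) (x₀ ⬝ᵥ A.mulVec x₀)) = co A + 1 := by
  have h := Kn_bo_eq hA x₀
  rw [Kn_co, Kn_co A, ← pow_succ'] at h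
  exact Nat.pow_right_injective p1 h

/-- sum over the border -/
lemma sum_bo {n : ℕ} {A : Matrix (Fin n) (Fin n) (ZMod p)} (hA : A.IsSymm) (Φ : ℕ → ℝ) :
    ∑ b : Fin n → ZMod p, ∑ c : ZMod p, Φ (co (bo A b c)) =
      (p : ℝ) ^ (n + 1) * ((1 / (p : ℝ)) ^ (co A + 1) * Φ (co A + 1) +
        (1 / (p : ℝ)) ^ (co A + 1) * ((p : ℝ) - 1) * Φ (co A) + (1 - (1 / (p : ℝ)) ^ co A) * Φ (co A - 1)) := by
  have hp0 : (p : ℝ) ≠ 0 := Nat.cast_ne_zero.2 (Fact.out : p.Prime).ne_zero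
  have h1 : ∀ b : Fin n → ZMod p, ∑ c : ZMod p, Φ (co (bo A b c)) =
      if ∃ x, A.mulVec x = b then Φ (co A + 1) + ((p : ℝ) - 1) * Φ (co A) else (p : ℝ) * Φ (co A - 1) := by
    intro b
    split_ifs with hb
    · obtain ⟨x, rfl⟩ := hb
      rw [← Finset.add_sum_erase Finset.univ _ (Finset.mem_univ (x ⬝ᵥ A.mulVec x)), co_eq' hA x]
      have h2 : ∀ c ∈ Finset.univ.erase (x ⬝ᵥ A.mulVec x), Φ (co (bo A (A.mulVec x) c)) = Φ (co A) := by
        intro c hc
        rw [co_ne hA (Finset.ne_of_mem_erase hc)]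
      rw [Finset.sum_congr rfl h2, Finset.sum_const, Finset.card_erase_of_mem (Finset.mem_univ _),
        Finset.card_univ, ZMod.card, nsmul_eq_mul, Nat.cast_sub p1.le, Nat.cast_one]
    · have h2 : ∀ c ∈ (Finset.univ : Finset (ZMod p)), Φ (co (bo A b c)) = Φ (co A - 1) := by
        intro c _
        rw [co_out hA c hb]
      rw [Finset.sum_congr rfl h2, Finset.sum_const, Finset.card_univ, ZMod.card, nsmul_eq_mul]
  rw [Finset.sum_congr rfl fun b _ => h1 b, Finset.sum_ite, Finset.sum_const, Finset.sum_const, nsmul_eq_mul,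
    nsmul_eq_mul]
  have h3 : ((Finset.univ.filter fun b : Fin n → ZMod p => ∃ x, A.mulVec x = b).card : ℝ) * (p : ℝ) ^ co A =
      (p : ℝ) ^ n := by
    have h4 := card_im A
    rw [Kn_co, Nat.card_eq_fintype_card, Fintype.card_subtype] at h4
    exact_mod_cast h4
  have h5 : ((Finset.univ.filter fun b : Fin n → ZMod p => ∃ x, A.mulVec x = b).card : ℝ) +
      ((Finset.univ.filter fun b : Fin n → ZMod p => ¬ ∃ x, A.mulVec x = b).card : ℝ) = (p : ℝ) ^ n := by
    have h6 := Finset.card_filter_add_card_filter_not (s := (Finset.univ : Finset (Fin n → ZMod p)))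
      (fun b => ∃ x, A.mulVec x = b)
    rw [Finset.card_univ, Fintype.card_fun, ZMod.card, Fintype.card_fin] at h6
    exact_mod_cast h6
  set R : ℝ := ((Finset.univ.filter fun b : Fin n → ZMod p => ∃ x, A.mulVec x = b).card : ℝ) with hR
  have h7 : ((Finset.univ.filter fun b : Fin n → ZMod p => ¬ ∃ x, A.mulVec x = b).card : ℝ) = (p : ℝ) ^ n - R := by
    linarith
  have h8 : R = (p : ℝ) ^ n * (1 / (p : ℝ)) ^ co A := by
    rw [← h3, one_div, inv_pow, mul_assoc, mul_inv_cancel₀ (pow_ne_zero _ hp0), mul_one]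
  rw [h7, h8, pow_succ (p : ℝ) n, pow_succ (1 / (p : ℝ)) (co A)]
  field_simp

/-- the sum over all symmetric matrices -/
noncomputable def SS (p : ℕ) [Fact p.Prime] (n : ℕ) (Φ : ℕ → ℝ) : ℝ := ∑ A : Sy p n, Φ (co A.1)

lemma SS_succ (n : ℕ) (Φ : ℕ → ℝ) : SS p (n + 1) Φ = (p : ℝ) ^ (n + 1) * SS p n (fun s =>
    (1 / (p : ℝ)) ^ (s + 1) * Φ (s + 1) + (1 / (p : ℝ)) ^ (s + 1) * ((p : ℝ) - 1) * Φ s +
      (1 - (1 / (p : ℝ)) ^ s) * Φ (s - 1)) := by
  unfold SS
  rw [← (boE (p := p) n).sum_comp, Fintype.sum_prod_type, Finset.mul_sum]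
  apply Finset.sum_congr rfl
  intro A _
  rw [Fintype.sum_prod_type]
  exact sum_bo A.2 Φ

lemma cS_succ (n : ℕ) : (Fintype.card (Sy p (n + 1)) : ℝ) = (Fintype.card (Sy p n) : ℝ) * (p : ℝ) ^ (n + 1) := by
  have h := Fintype.card_congr (boE (p := p) n)
  rw [Fintype.card_prod, Fintype.card_prod, Fintype.card_fun, ZMod.card, Fintype.card_fin] at h
  have h1 : Fintype.card (Sy p (n + 1)) = Fintype.card (Sy p n) * p ^ (n + 1) := by
    rw [pow_succ]
    exact h.symm
  rw [h1]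
  push_cast
  ring

lemma cS_pos (n : ℕ) : (0 : ℝ) < (Fintype.card (Sy p n) : ℝ) := by
  have : Nonempty (Sy p n) := ⟨⟨0, isSymm_zero⟩⟩
  exact_mod_cast Fintype.card_pos

/-- the proportion of the symmetric matrices of corank `r` -/
noncomputable def PP (p : ℕ) [Fact p.Prime] (n r : ℕ) : ℝ :=
  SS p n (fun s => if s = r then 1 else 0) / (Fintype.card (Sy p n) : ℝ)

lemma PP_succ_zero (n : ℕ) : PP p (n + 1) 0 = (1 / (p : ℝ)) * ((p : ℝ) - 1) * PP p n 0 +
    (1 - 1 / (p : ℝ)) * PP p n 1 := by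
  have hc := cS_pos (p := p) n
  have hp0 : (p : ℝ) ≠ 0 := Nat.cast_ne_zero.2 (Fact.out : p.Prime).ne_zero
  unfold PP
  rw [SS_succ, cS_succ, mul_comm (Fintype.card (Sy p n) : ℝ), mul_div_mul_left _ _ (pow_ne_zero _ hp0),
    ← mul_div_assoc, ← mul_div_assoc, ← add_div]
  congr 1
  unfold SS
  rw [Finset.mul_sum, Finset.mul_sum, ← Finset.sum_add_distrib]
  apply Finset.sum_congr rfl
  intro A _
  generalize co A.1 = s
  rcases s with _ | _ | s
  · simp
  · simp
  · simp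

lemma PP_succ_succ (n r : ℕ) : PP p (n + 1) (r + 1) = (1 / (p : ℝ)) ^ (r + 1) * PP p n r +
    (1 / (p : ℝ)) ^ (r + 2) * ((p : ℝ) - 1) * PP p n (r + 1) + (1 - (1 / (p : ℝ)) ^ (r + 2)) * PP p n (r + 2) := by
  have hc := cS_pos (p := p) n
  have hp0 : (p : ℝ) ≠ 0 := Nat.cast_ne_zero.2 (Fact.out : p.Prime).ne_zero
  unfold PP
  rw [SS_succ, cS_succ, mul_comm (Fintype.card (Sy p n) : ℝ), mul_div_mul_left _ _ (pow_ne_zero _ hp0),
    ← mul_div_assoc, ← mul_div_assoc, ← mul_div_assoc, ← add_div, ← add_div]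
  congr 1
  unfold SS
  rw [Finset.mul_sum, Finset.mul_sum, Finset.mul_sum, ← Finset.sum_add_distrib, ← Finset.sum_add_distrib]
  apply Finset.sum_congr rfl
  intro A _
  generalize co A.1 = s
  by_cases h1 : s = r
  · subst h1
    have h3 : ¬ s - 1 = s + 1 := by omega
    simp [h3]
  by_cases h5 : s = r + 1
  · subst h5
    simp
  by_cases h6 : s = r + 2
  · subst h6
    simp
  · have h7 : ¬ s + 1 = r + 1 := by omega
    have h8 : ¬ s - 1 = r + 1 := by omega
    simp [h1, h5, h6, h8]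

lemma PP_zero (r : ℕ) : PP p 0 r = if r = 0 then 1 else 0 := by
  have h1 : ∀ A : Sy p 0, co A.1 = 0 := fun A => Nat.le_zero.mp (co_le A.1)
  have hc := cS_pos (p := p) 0
  unfold PP SS
  rw [Finset.sum_congr rfl fun A _ => by rw [h1 A], Finset.sum_const, Finset.card_univ, nsmul_eq_mul,
    mul_div_assoc, mul_comm, div_mul_cancel₀ _ hc.ne']
  by_cases h : r = 0
  · simp [h]
  · have h' : ¬ 0 = r := fun h0 => h h0.symm
    simp [h, h']

/-! ### the closed form -/

/-- the proportion of nonsingular matrices -/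
noncomputable def ss (p m : ℕ) : ℝ := ∏ j ∈ range ((m + 1) / 2), (1 - (1 / (p : ℝ)) ^ (2 * j + 1))

noncomputable def aa (p n r : ℕ) : ℝ := ∏ i ∈ range r, (1 - (1 / (p : ℝ)) ^ n * (p : ℝ) ^ i)

noncomputable def dd (p r : ℕ) : ℝ := ∏ i ∈ range r, ((p : ℝ) ^ (i + 1) - 1)

lemma ss_rec (m : ℕ) : (p : ℝ) * ss p (m + 1) = (1 - (1 / (p : ℝ)) ^ m) * ss p (m - 1) + ((p : ℝ) - 1) * ss p m := by
  have hp0 : (p : ℝ) ≠ 0 := Nat.cast_ne_zero.2 (Fact.out : p.Prime).ne_zero
  unfold ss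
  rcases Nat.even_or_odd' m with ⟨k, rfl | rfl⟩
  · have h1 : (2 * k + 1 + 1) / 2 = k + 1 := by omega
    have h2 : (2 * k - 1 + 1) / 2 = k := by omega
    have h3 : (2 * k + 1) / 2 = k := by omega
    rw [h1, h2, h3, Finset.prod_range_succ]
    have h4 : (p : ℝ) * (1 / (p : ℝ)) ^ (2 * k + 1) = (1 / (p : ℝ)) ^ (2 * k) := by
      rw [pow_succ]
      field_simp
    linear_combination (- ∏ j ∈ range k, (1 - (1 / (p : ℝ)) ^ (2 * j + 1))) * h4
  · have h1 : (2 * k + 1 + 1 + 1) / 2 = k + 1 := by omega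
    have h2 : (2 * k + 1 - 1 + 1) / 2 = k := by omega
    have h3 : (2 * k + 1 + 1) / 2 = k + 1 := by omega
    rw [h1, h2, h3, Finset.prod_range_succ]
    ring

lemma dd_pos (r : ℕ) : 0 < dd p r := by
  unfold dd
  apply Finset.prod_pos
  intro i _
  have : (1 : ℝ) < (p : ℝ) ^ (i + 1) := one_lt_pow₀ (by exact_mod_cast p1) (by omega)
  linarith

lemma dd_succ (r : ℕ) : dd p (r + 1) = dd p r * ((p : ℝ) ^ (r + 1) - 1) := by
  unfold dd
  rw [Finset.prod_range_succ]

lemma aa_succ (n r : ℕ) : aa p n (r + 1) = aa p n r * (1 - (1 / (p : ℝ)) ^ n * (p : ℝ) ^ r) := by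
  unfold aa
  rw [Finset.prod_range_succ]

lemma aa_succ_succ (n r : ℕ) : aa p (n + 1) (r + 1) = aa p n r * (1 - (1 / (p : ℝ)) ^ (n + 1)) := by
  have hp0 : (p : ℝ) ≠ 0 := Nat.cast_ne_zero.2 (Fact.out : p.Prime).ne_zero
  unfold aa
  rw [Finset.prod_range_succ']
  congr 1
  · apply Finset.prod_congr rfl
    intro i _
    rw [pow_succ, pow_succ]
    field_simp
  · simp

lemma aa_zero {n r : ℕ} (h : n < r) : aa p n r = 0 := by
  have hp0 : (p : ℝ) ≠ 0 := Nat.cast_ne_zero.2 (Fact.out : p.Prime).ne_zero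
  unfold aa
  apply Finset.prod_eq_zero (Finset.mem_range.mpr h)
  rw [one_div, inv_pow, inv_mul_cancel₀ (pow_ne_zero _ hp0), sub_self]

lemma inv_id (r : ℕ) : (1 - (1 / (p : ℝ)) ^ r) = (1 / (p : ℝ)) ^ r * ((p : ℝ) ^ r - 1) := by
  have hp0 : (p : ℝ) ≠ 0 := Nat.cast_ne_zero.2 (Fact.out : p.Prime).ne_zero
  rw [mul_sub, one_div, inv_pow, inv_mul_cancel₀ (pow_ne_zero _ hp0), mul_one]

theorem PP_eq (n : ℕ) : ∀ r : ℕ, PP p n r = aa p n r / dd p r * ss p (n - r) := by
  have hp0 : (p : ℝ) ≠ 0 := Nat.cast_ne_zero.2 (Fact.out : p.Prime).ne_zero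
  induction n with
  | zero =>
    intro r
    rw [PP_zero]
    rcases r with _ | r
    · simp [aa, dd, ss]
    · rw [aa_zero (by omega)]
      simp
  | succ n ih =>
    intro r
    rcases r with _ | r
    · rw [PP_succ_zero, ih, ih]
      have h1 := ss_rec (p := p) n
      have h2 : aa p n 0 = 1 := by simp [aa]
      have h3 : dd p 0 = 1 := by simp [dd]
      have h4 : aa p (n + 1) 0 = 1 := by simp [aa]
      have h5 : aa p n 1 = 1 - (1 / (p : ℝ)) ^ n := by simp [aa]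
      have h6 : dd p 1 = (p : ℝ) - 1 := by simp [dd]
      have h7 : (p : ℝ) - 1 ≠ 0 := by
        have := dd_pos (p := p) 1
        rw [h6] at this
        exact this.ne'
      have h8 : 1 - 1 / (p : ℝ) = 1 / (p : ℝ) * ((p : ℝ) - 1) := by field_simp
      rw [h2, h3, h4, h5, h6, h8, Nat.sub_zero, Nat.sub_zero, div_one, one_mul, one_mul]
      have h9 : ss p (n + 1) = 1 / (p : ℝ) * ((p : ℝ) * ss p (n + 1)) := by field_simp
      rw [h9, h1]
      field_simp
      ring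
    · rw [PP_succ_succ, ih, ih, ih]
      rw [aa_succ_succ, aa_succ n (r + 1), aa_succ n r, dd_succ (r + 1), dd_succ r]
      have hd := (dd_pos (p := p) r).ne'
      have hd1 : (p : ℝ) ^ (r + 1) - 1 ≠ 0 := by
        have h1 : (1 : ℝ) < (p : ℝ) ^ (r + 1) := one_lt_pow₀ (by exact_mod_cast p1) (by omega)
        linarith
      have hd2 : (p : ℝ) ^ (r + 1 + 1) - 1 ≠ 0 := by
        have h1 : (1 : ℝ) < (p : ℝ) ^ (r + 1 + 1) := one_lt_pow₀ (by exact_mod_cast p1) (by omega)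
        linarith
      have hi1 := inv_id (p := p) (r + 1)
      have hi2 := inv_id (p := p) (r + 2)
      rcases lt_trichotomy n r with hlt | heq | hgt
      · rw [aa_zero hlt]
        simp
      · subst heq
        have h0 : 1 - (1 / (p : ℝ)) ^ n * (p : ℝ) ^ n = 0 := by
          rw [one_div, inv_pow, inv_mul_cancel₀ (pow_ne_zero _ hp0), sub_self]
        rw [h0, hi1]
        have h1 : n + 1 - (n + 1) = n - n := by omega
        rw [h1]
        field_simp
        ring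
      · obtain ⟨m, rfl⟩ : ∃ m, n = r + m + 1 := ⟨n - r - 1, by omega⟩
        have e1 : r + m + 1 + 1 - (r + 1) = m + 1 := by omega
        have e2 : r + m + 1 - r = m + 1 := by omega
        have e3 : r + m + 1 - (r + 1) = m := by omega
        have e4 : r + m + 1 - (r + 2) = m - 1 := by omega
        rw [e1, e2, e3, e4]
        have f1 : (1 / (p : ℝ)) ^ (r + m + 1) * (p : ℝ) ^ r = (1 / (p : ℝ)) ^ (m + 1) := by
          have : r + m + 1 = r + (m + 1) := by ring
          rw [this, pow_add, one_div, inv_pow, mul_right_comm, inv_mul_cancel₀ (pow_ne_zero _ hp0), one_mul]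
        have f2 : (1 / (p : ℝ)) ^ (r + m + 1) * (p : ℝ) ^ (r + 1) = (1 / (p : ℝ)) ^ m := by
          have : r + m + 1 = (r + 1) + m := by ring
          rw [this, pow_add, one_div, inv_pow, mul_right_comm, inv_mul_cancel₀ (pow_ne_zero _ hp0), one_mul]
        rw [f1, f2, hi2]
        have hs := ss_rec (p := p) m
        have g1 : (1 / (p : ℝ)) ^ (r + 2) * (p : ℝ) = (1 / (p : ℝ)) ^ (r + 1) := by
          rw [pow_succ (1 / (p : ℝ)) (r + 1)]
          field_simp
        have g2 : (1 / (p : ℝ)) ^ (r + m + 1 + 1) = (1 / (p : ℝ)) ^ (r + 1) * (1 / (p : ℝ)) ^ (m + 1) := by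
          rw [← pow_add]
          congr 1
          ring
        rw [g2]
        set x : ℝ := 1 / (p : ℝ) with hx
        set A := aa p (r + m + 1) r
        set D := dd p r
        set q1 : ℝ := (p : ℝ) ^ (r + 1) - 1
        have e5 : (p : ℝ) ^ (r + 2) - 1 = (p : ℝ) ^ (r + 1 + 1) - 1 := rfl
        rw [e5]
        set q2 : ℝ := (p : ℝ) ^ (r + 1 + 1) - 1
        have k1 : x ^ (r + 1) * q1 = 1 - x ^ (r + 1) := hi1.symm
        have k2 : x ^ (r + 1) = x ^ (r + 2) * p := g1.symm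
        have LHS : A * (1 - x ^ (r + 1) * x ^ (m + 1)) / (D * q1) * ss p (m + 1) =
            (A * ss p (m + 1) * (1 - x ^ (r + 1) * x ^ (m + 1))) / (D * q1) := by ring
        have RHS : x ^ (r + 1) * (A / D * ss p (m + 1)) +
            x ^ (r + 2) * ((p : ℝ) - 1) * (A * (1 - x ^ (m + 1)) / (D * q1) * ss p m) +
            x ^ (r + 2) * q2 * (A * (1 - x ^ (m + 1)) * (1 - x ^ m) / (D * q1 * q2) * ss p (m - 1)) =
            (A * (x ^ (r + 1) * q1 * ss p (m + 1) + x ^ (r + 2) * (1 - x ^ (m + 1)) *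
              ((1 - x ^ m) * ss p (m - 1) + ((p : ℝ) - 1) * ss p m))) / (D * q1) := by
          field_simp
          ring
        rw [LHS, RHS, ← hs, k1]
        congr 1
        linear_combination (A * (1 - x ^ (m + 1)) * ss p (m + 1)) * g1

end

end Pool.Agent.Q238.EN

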