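import Pool.Agent.Q283.EN.Stm
import Pool.Agent.Q238.EN.Sym2

/-! Project EN (helper283), job SYML (helper238): the law of the corank of random symmetric matrices. -/

set_option autoImplicit false
set_option linter.unusedSectionVars false

namespace Pool.Agent.Q238.EN

open Finset Filter Topology Matrix
open scoped Classical
open Pool.Agent.Q283.EN

section

variable {p : ℕ} [Fact p.Prime]

lemma nSy_eq (n : ℕ) : (nSy p n : ℝ) = (Fintype.card (Sy p n) : ℝ) := by
  unfold nSy
  rw [Nat.card_eq_fintype_card]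

lemma nRk_eq (n r : ℕ) : (nRk p n r : ℝ) = SS p n (fun s => if s = r then 1 else 0) := by
  have h1 : nRk p n r = Nat.card {A : Sy p n // co A.1 = r} := by
    unfold nRk
    apply Nat.card_congr
    refine (Equiv.subtypeSubtypeEquivSubtypeInter _ _).symm.trans (Equiv.subtypeEquivRight fun A => ?_)
    exact co_eq A.1 r
  rw [h1, Nat.card_eq_fintype_card, Fintype.card_subtype]
  unfold SS
  rw [← Finset.sum_filter, Finset.sum_const, nsmul_eq_mul, mul_one]

lemma ratio_eq (n r : ℕ) : (nRk p n r : ℝ) / nSy p n = aa p n r / dd p r * ss p (n - r) := by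
  rw [nRk_eq, nSy_eq, ← PP_eq]
  rfl

lemma x_lt : (1 / (p : ℝ)) < 1 := by
  rw [div_lt_one (by exact_mod_cast (Fact.out : p.Prime).pos)]
  exact_mod_cast p1

lemma x_nonneg : 0 ≤ (1 / (p : ℝ)) := by positivity

lemma aa_lim (r : ℕ) : Tendsto (fun n : ℕ => aa p n r) atTop (𝓝 1) := by
  unfold aa
  have h : Tendsto (fun n : ℕ => ∏ i ∈ range r, (1 - (1 / (p : ℝ)) ^ n * (p : ℝ) ^ i)) atTop
      (𝓝 (∏ i ∈ range r, (1 - 0 * (p : ℝ) ^ i))) := by
    apply tendsto_finsetProd
    intro i _
    exact tendsto_const_nhds.sub ((tendsto_pow_atTop_nhds_zero_of_lt_one x_nonneg x_lt).mul_const _)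
  simpa using h

lemma ss_lim : Tendsto (fun m : ℕ => ss p m) atTop (𝓝 (∏' i : ℕ, (1 - (1 / (p : ℝ)) ^ (2 * i + 1)))) := by
  have hm : Multipliable (fun i : ℕ => (1 - (1 / (p : ℝ)) ^ (2 * i + 1))) := by
    have hs : Summable (fun i : ℕ => -((1 / (p : ℝ)) ^ (2 * i + 1))) := by
      apply Summable.neg
      have h1 : Summable (fun i : ℕ => (1 / (p : ℝ)) * ((1 / (p : ℝ)) ^ 2) ^ i) := by
        apply Summable.mul_left
        apply summable_geometric_of_lt_one (by positivity)
        have := x_lt (p := p)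
        have := x_nonneg (p := p)
        nlinarith
      refine h1.congr fun i => ?_
      rw [← pow_mul, pow_succ, mul_comm]
    have h2 := Real.multipliable_one_add_of_summable hs
    refine h2.congr fun i => ?_
    ring
  have h3 := hm.hasProd.tendsto_prod_nat
  have h4 : Tendsto (fun m : ℕ => (m + 1) / 2) atTop atTop := by
    refine tendsto_atTop.2 fun b => ?_
    filter_upwards [eventually_ge_atTop (2 * b)] with m hm
    omega
  exact h3.comp h4

end

/-- JOB SYML -/
theorem syml : S_SYML := by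
  intro p _ r
  have h1 : Tendsto (fun n : ℕ => aa p n r / dd p r * ss p (n - r)) atTop (𝓝 (al p r)) := by
    have h2 := ((aa_lim (p := p) r).div_const (dd p r)).mul ((ss_lim (p := p)).comp (tendsto_sub_atTop_nat r))
    have h3 : 1 / dd p r * (∏' i : ℕ, (1 - (1 / (p : ℝ)) ^ (2 * i + 1))) = al p r := by
      unfold al dd
      ring
    rw [h3] at h2
    exact h2
  refine h1.congr fun n => ?_
  exact (ratio_eq n r).symm

end Pool.Agent.Q238.EN
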